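import Pool.Agent.Lib_MP_af4de1.Large

/-!
# Sokal's conjecture on the simple zeros of `F(z;q)`: the exceptional set is countable
-/

namespace Pool.Agent.Results.MP_af4de1_an.CountableExceptions

open SokalF

/-- `z` is a multiple zero of `F(.;q)`. -/
def MultipleZero (q z : ℂ) : Prop := F q z = 0 ∧ deriv (F q) z = 0

/-- For every `R` only finitely many pairs `(q, z)` with `0 < |q| ≤ 1`, `|z| ≤ R` are such that `z`
is a multiple zero of `F(.;q)`; for every `r < 1` only finitely many pairs with `0 < |q| ≤ r` are.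
Hence all zeros of `F(.;q)` are simple for all `q` with `0 < |q| ≤ 1` outside a countable set, and
for all but countably many directions they are simple for all `q` on the whole radius, its
endpoint included. -/
theorem result :
    (∀ R : ℝ, {p : ℂ × ℂ | 0 < ‖p.1‖ ∧ ‖p.1‖ ≤ 1 ∧ ‖p.2‖ ≤ R ∧ MultipleZero p.1 p.2}.Finite) ∧
    (∀ r : ℝ, r < 1 → {p : ℂ × ℂ | 0 < ‖p.1‖ ∧ ‖p.1‖ ≤ r ∧ MultipleZero p.1 p.2}.Finite) ∧
    {q : ℂ | 0 < ‖q‖ ∧ ‖q‖ ≤ 1 ∧ ∃ z, MultipleZero q z}.Countable ∧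
    {u : ℂ | ‖u‖ = 1 ∧ ∃ r : ℝ, 0 < r ∧ r ≤ 1 ∧ ∃ z, MultipleZero (r * u) z}.Countable := by
  have h1 : ∀ R : ℝ,
      {p : ℂ × ℂ | 0 < ‖p.1‖ ∧ ‖p.1‖ ≤ 1 ∧ ‖p.2‖ ≤ R ∧ MultipleZero p.1 p.2}.Finite := by
    intro R
    refine (multi_finite R).subset ?_
    rintro ⟨q, z⟩ ⟨h1, h2, h3, h4, h5⟩
    exact ⟨h1, h2, h3, h4, h5⟩
  have h3 : {q : ℂ | 0 < ‖q‖ ∧ ‖q‖ ≤ 1 ∧ ∃ z, MultipleZero q z}.Countable := by
    have hc : (⋃ n : ℕ, Prod.fst '' {p : ℂ × ℂ | 0 < ‖p.1‖ ∧ ‖p.1‖ ≤ 1 ∧ ‖p.2‖ ≤ (n : ℝ) ∧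
        MultipleZero p.1 p.2}).Countable :=
      Set.countable_iUnion fun n => ((h1 n).countable.image _)
    refine hc.mono ?_
    rintro q ⟨hq0, hq1, z, hz⟩
    obtain ⟨n, hn⟩ := exists_nat_ge ‖z‖
    exact Set.mem_iUnion.2 ⟨n, (q, z), ⟨hq0, hq1, hn, hz⟩, rfl⟩
  refine ⟨h1, ?_, h3, ?_⟩
  · intro r hr
    obtain ⟨R, hR⟩ := large_bound hr
    refine (h1 R).subset ?_
    rintro ⟨q, z⟩ ⟨hq0, hqr, hz⟩
    refine ⟨hq0, hqr.trans hr.le, ?_, hz⟩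
    refine hR q z hq0 hqr hz.1 ?_
    rw [← deriv_F (hqr.trans hr.le)]
    exact hz.2
  · refine (h3.image fun q : ℂ => q / (‖q‖ : ℂ)).mono ?_
    rintro u ⟨hu, r, hr0, hr1, hz⟩
    have hn : ‖(r : ℂ) * u‖ = r := by
      rw [norm_mul, hu, mul_one, Complex.norm_real, Real.norm_of_nonneg hr0.le]
    refine ⟨(r : ℂ) * u, ⟨by rw [hn]; exact hr0, by rw [hn]; exact hr1, hz⟩, ?_⟩
    have hrc : (r : ℂ) ≠ 0 := by exact_mod_cast hr0.ne'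
    simp only [hn]
    field_simp

end Pool.Agent.Results.MP_af4de1_an.CountableExceptions
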