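import Pool.Agent.Lib_MP_af4de1_Ray.Main

/-!
# MP_af4de1_an: the zeros of `F(z;q)` for `q` on the rays `arg q = ±2π/3`

`ω` is a primitive cube root of unity. All zeros of `F(.;ρω)`, `0 < ρ ≤ 1`, are simple and have
pairwise distinct moduli; the same holds for `∑ ω^(k(k-1)/2) e k z^k` whenever
`∑ e k x^k = ∏ (1 + t j x)` is a polynomial with only negative zeros.
-/

namespace Pool.Agent.Results.MP_af4de1_an.CubicRays

open SokalF SokalRay Polynomial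

/-- All zeros of `g` are simple and they have pairwise distinct moduli. -/
def GoodZeros (g : ℂ → ℂ) : Prop :=
  (∀ z, g z = 0 → deriv g z ≠ 0) ∧ ∀ z w, g z = 0 → g w = 0 → ‖z‖ = ‖w‖ → z = w

/-- Let `ω ^ 2 + ω + 1 = 0`, i.e. `ω = exp (± 2 π i / 3)`. For `0 < ρ ≤ 1` all zeros of `F(.;ρω)` are
simple and have pairwise distinct moduli. There is an open set containing all `ρω`, `0 < ρ < 1`, such
that all zeros of `F(.;q)` are simple for all `q ≠ 0` in it. For all `t 0, …, t (n-1) > 0` the zeros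
of the polynomial obtained from `∏ (1 + t j x)` by multiplying the coefficient of `x ^ k` by
`ω ^ (k (k-1) / 2)` are simple and have pairwise distinct moduli. -/
theorem result (ω : ℂ) (hω : ω ^ 2 + ω + 1 = 0) :
    (∀ ρ : ℝ, 0 < ρ → ρ ≤ 1 → GoodZeros (F (ρ * ω))) ∧
    (∃ U : Set ℂ, IsOpen U ∧ (∀ ρ : ℝ, 0 < ρ → ρ < 1 → (ρ : ℂ) * ω ∈ U) ∧
      ∀ q ∈ U, 0 < ‖q‖ → ∀ z, F q z = 0 → deriv (F q) z ≠ 0) ∧
    (∀ (n : ℕ) (t : ℕ → ℝ), (∀ j < n, 0 < t j) →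
      GoodZeros fun z : ℂ => ∑ k ∈ Finset.range (n + 1), ω ^ (k * (k - 1) / 2) *
        (∏ j ∈ Finset.range n, (1 + C (t j : ℂ) * X) : ℂ[X]).coeff k * z ^ k) := by
  refine ⟨fun ρ hρ0 hρ1 => ⟨fun z hz => simple_ray hω hρ0 hρ1 hz,
    fun z w hz hw hzw => distinct_moduli hω hρ0 hρ1 hz hw hzw⟩, ?_, fun n t ht => ?_⟩
  · refine ⟨{q : ℂ | ‖q‖ < 1 ∧ (0 < ‖q‖ → ∀ z, F q z = 0 → deriv (F q) z ≠ 0)}, isOpen_good,
      fun ρ hρ0 hρ1 => ⟨?_, fun _ z hz => simple_ray hω hρ0 hρ1.le hz⟩, fun q hq h0 => hq.2 h0⟩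
    rw [norm_mul, omega_norm hω, mul_one, Complex.norm_real, Real.norm_of_nonneg hρ0.le]
    exact hρ1
  · rw [← P_poly hω t n]
    exact ⟨fun z hz => simple_finite hω t (fun j hj => ht j (Finset.mem_range.1 hj)) hz,
      fun z w hz hw hzw => distinct_finite hω n t ht hz hw hzw⟩

end Pool.Agent.Results.MP_af4de1_an.CubicRays
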