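import Pool.Agent.Lib_MP_af4de1_Bethe.Final

/-!
# MP_af4de1_an: the zeros of `F(z;q)` for `0 < |q| < 13/16`

All zeros are simple, and listed by increasing moduli their consecutive ratios have modulus more
than `1 / |q|`.
-/

namespace Pool.Agent.Results.MP_af4de1_an.ExplicitDisc

open SokalF

/-- For every complex `q` with `0 < |q| < 13/16` there is a sequence `z 0, z 1, z 2, …` that lists
all zeros of `F(.;q)`; every `z k` is a simple zero, and `|z k| < |q| |z (k+1)|` for all `k`. -/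
theorem result (q : ℂ) (hq0 : 0 < ‖q‖) (hq : ‖q‖ < 13 / 16) :
    ∃ z : ℕ → ℂ, (∀ k, F q (z k) = 0) ∧ (∀ w, F q w = 0 → ∃ k, w = z k) ∧
      (∀ k, deriv (F q) (z k) ≠ 0) ∧ ∀ k, ‖z k‖ < ‖q‖ * ‖z (k + 1)‖ :=
  SokalBethe.main (norm_pos_iff.1 hq0) hq

end Pool.Agent.Results.MP_af4de1_an.ExplicitDisc
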