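import Pool.Agent.Lib_MP_af4de1_u.Main

/-!
# Sokal's conjecture on the zeros of `F(z;q)`: the exceptions can accumulate at most at finitely many
points `(ξ, ∞)` with `ξ` a root of unity
-/

namespace Pool.Agent.Results.MP_af4de1_an.FiniteExceptions

open SokalF

/-- `z` is a multiple zero of `F(.;q)`. -/
def MultipleZero (q z : ℂ) : Prop := F q z = 0 ∧ deriv (F q) z = 0

/-- There is a finite set `Ω` of roots of unity such that for all `ε > 0` and all `R` there are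
only finitely many pairs `(q, z)` with `0 < |q| ≤ 1` such that `z` is a multiple zero of `F(.;q)`
and either `|z| ≤ R` or for all `ξ ∈ Ω`, `q = ξ` or `|q - ξ| ≥ ε`.  In particular `F(.;q)` has
only finitely many multiple zeros for every single `q` with `0 < |q| ≤ 1`. -/
theorem result : ∃ Ω : Set ℂ, Ω.Finite ∧ (∀ ξ ∈ Ω, ∃ n : ℕ, 0 < n ∧ ξ ^ n = 1) ∧
    (∀ ε R : ℝ, 0 < ε → {p : ℂ × ℂ | 0 < ‖p.1‖ ∧ ‖p.1‖ ≤ 1 ∧ MultipleZero p.1 p.2 ∧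
      (‖p.2‖ ≤ R ∨ ∀ ξ ∈ Ω, p.1 = ξ ∨ ε ≤ ‖p.1 - ξ‖)}.Finite) ∧
    ∀ q : ℂ, 0 < ‖q‖ → ‖q‖ ≤ 1 → {z : ℂ | MultipleZero q z}.Finite := by
  obtain ⟨N0, hN0, hA⟩ := SokalU.mainA
  have hfin : {ξ : ℂ | ∃ n : ℕ, 0 < n ∧ n < N0 ∧ ξ ^ n = 1}.Finite := by
    have : {ξ : ℂ | ∃ n : ℕ, 0 < n ∧ n < N0 ∧ ξ ^ n = 1} ⊆
        ⋃ n ∈ Finset.Ioo 0 N0, ((Polynomial.nthRootsFinset n (1 : ℂ) : Finset ℂ) : Set ℂ) := by
      rintro ξ ⟨n, h1, h2, h3⟩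
      refine Set.mem_biUnion (x := n) (by simpa using ⟨h1, h2⟩) ?_
      simpa [Polynomial.mem_nthRootsFinset h1] using h3
    refine Set.Finite.subset ?_ this
    exact Set.Finite.biUnion (Finset.finite_toSet _) (fun n _ => Finset.finite_toSet _)
  have hdF : ∀ q z : ℂ, ‖q‖ ≤ 1 → MultipleZero q z → F q (q * z) = 0 := by
    intro q z hq hz
    rw [← deriv_F hq]
    exact hz.2
  have hsingle : ∀ q : ℂ, 0 < ‖q‖ → ‖q‖ ≤ 1 → {z : ℂ | MultipleZero q z}.Finite := by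
    intro q hq0 hq1
    obtain ⟨R, hR⟩ := SokalU.mainB q hq0 hq1
    refine Set.Finite.subset ((multi_finite R).image Prod.snd) ?_
    intro z hz
    exact ⟨(q, z), ⟨hq0, hq1, hR z hz.1 (hdF q z hq1 hz), hz.1, hz.2⟩, rfl⟩
  refine ⟨{ξ : ℂ | ∃ n : ℕ, 0 < n ∧ n < N0 ∧ ξ ^ n = 1}, hfin, ?_, ?_, hsingle⟩
  · rintro ξ ⟨n, h1, _, h2⟩
    exact ⟨n, h1, h2⟩
  · intro ε R hε
    obtain ⟨r, hr, R1, hR1⟩ := hA ε hε
    obtain ⟨R2, hR2⟩ := large_bound hr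
    have hΩ : {p : ℂ × ℂ | p.1 ∈ {ξ : ℂ | ∃ n : ℕ, 0 < n ∧ n < N0 ∧ ξ ^ n = 1} ∧ 0 < ‖p.1‖ ∧
        ‖p.1‖ ≤ 1 ∧ MultipleZero p.1 p.2}.Finite := by
      have : {p : ℂ × ℂ | p.1 ∈ {ξ : ℂ | ∃ n : ℕ, 0 < n ∧ n < N0 ∧ ξ ^ n = 1} ∧ 0 < ‖p.1‖ ∧
          ‖p.1‖ ≤ 1 ∧ MultipleZero p.1 p.2} ⊆
          ⋃ ξ ∈ {ξ : ℂ | ∃ n : ℕ, 0 < n ∧ n < N0 ∧ ξ ^ n = 1},
            (fun z : ℂ => (ξ, z)) '' {z : ℂ | 0 < ‖ξ‖ ∧ ‖ξ‖ ≤ 1 ∧ MultipleZero ξ z} := by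
        rintro ⟨q, z⟩ ⟨h1, h2, h3, h4⟩
        exact Set.mem_biUnion h1 ⟨z, ⟨h2, h3, h4⟩, rfl⟩
      refine Set.Finite.subset (hfin.biUnion fun ξ _ => Set.Finite.image _ ?_) this
      by_cases hξ : 0 < ‖ξ‖ ∧ ‖ξ‖ ≤ 1
      · exact (hsingle ξ hξ.1 hξ.2).subset fun z hz => hz.2.2
      · refine Set.finite_empty.subset ?_
        rintro z ⟨h1, h2, _⟩
        exact hξ ⟨h1, h2⟩
    refine Set.Finite.subset (hΩ.union (multi_finite (max R (max R1 R2)))) ?_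
    rintro ⟨q, z⟩ ⟨hq0, hq1, hz, hcase⟩
    by_cases hqΩ : q ∈ {ξ : ℂ | ∃ n : ℕ, 0 < n ∧ n < N0 ∧ ξ ^ n = 1}
    · exact Or.inl ⟨hqΩ, hq0, hq1, hz⟩
    · refine Or.inr ⟨hq0, hq1, ?_, hz.1, hz.2⟩
      rcases hcase with hc | hc
      · exact le_max_of_le_left hc
      · refine le_max_of_le_right ?_
        rcases le_or_gt r ‖q‖ with hle | hlt
        · refine le_max_of_le_left ?_
          by_contra hcon
          push Not at hcon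
          refine hR1 q z hle hq0 hq1 hcon.le ?_ hz.1 (hdF q z hq1 hz)
          intro n ξ h1 h2 h3
          have hξ : ξ ∈ {ξ : ℂ | ∃ n : ℕ, 0 < n ∧ n < N0 ∧ ξ ^ n = 1} := ⟨n, h1, h2, h3⟩
          rcases hc ξ hξ with h4 | h4
          · simp only at h4
            exact absurd (h4 ▸ hξ) hqΩ
          · exact h4
        · exact le_max_of_le_right (hR2 q z hq0 hlt.le hz.1 (hdF q z hq1 hz))

end Pool.Agent.Results.MP_af4de1_an.FiniteExceptions
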