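import Pool.Agent.Lib_MP_af4de1_v.Final4

/-!
# Sokal's conjecture on the zeros of `F(z;q)`: at most finitely many exceptions in all
-/

namespace Pool.Agent.Results.MP_af4de1_an.FinitelyMany

open SokalF

/-- `z` is a multiple zero of `F(.;q)`. -/
def MultipleZero (q z : ℂ) : Prop := F q z = 0 ∧ deriv (F q) z = 0

/-- There are only finitely many pairs `(q, z)` with `0 < |q| ≤ 1` such that `z` is a multiple
zero of `F(.;q)`. -/
theorem result : {p : ℂ × ℂ | 0 < ‖p.1‖ ∧ ‖p.1‖ ≤ 1 ∧ MultipleZero p.1 p.2}.Finite := by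
  obtain ⟨R, hR⟩ := SokalV.bounded
  refine Set.Finite.subset (multi_finite R) ?_
  rintro ⟨q, z⟩ ⟨h1, h2, h3, h4⟩
  refine ⟨h1, h2, hR q z h1 h2 h3 ?_, h3, h4⟩
  rw [← deriv_F h2]
  exact h4

end Pool.Agent.Results.MP_af4de1_an.FinitelyMany
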