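import Pool.Agent.Lib_MP_af4de1_BPlus.Final

/-!
# Large zeros of `F(z;q)`, `0 < |q| ≤ 1`: simple and with pairwise distinct absolute values

Eremenko's theorem (listed as known for a single `q` with `0 < |q| < 1`) up to and including the
unit circle, and uniformly in `q` away from finitely many roots of unity.
-/

namespace Pool.Agent.Results.MP_af4de1_an.LargeZeros

open SokalF

/-- All zeros of `F(.;q)` of modulus larger than `R` are simple, and no two different zeros of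
`F(.;q)` of modulus larger than `R` have the same modulus. -/
def SimpleDistinctBeyond (q : ℂ) (R : ℝ) : Prop :=
  ∀ u : ℂ, R < ‖u‖ → F q u = 0 → deriv (F q) u ≠ 0 ∧ ∀ v : ℂ, F q v = 0 → ‖v‖ = ‖u‖ → v = u

/-- There is a finite set `Ω` of roots of unity such that for every `ε > 0` there is an `R` which
is good for all `q` with `0 < |q| ≤ 1` and `q = ξ` or `|q - ξ| ≥ ε` for all `ξ ∈ Ω`.  In
particular for every single `q` with `0 < |q| ≤ 1` there is such an `R`. -/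
theorem result : ∃ Ω : Set ℂ, Ω.Finite ∧ (∀ ξ ∈ Ω, ∃ n : ℕ, 0 < n ∧ ξ ^ n = 1) ∧
    (∀ ε : ℝ, 0 < ε → ∃ R : ℝ, ∀ q : ℂ, 0 < ‖q‖ → ‖q‖ ≤ 1 →
      (∀ ξ ∈ Ω, q = ξ ∨ ε ≤ ‖q - ξ‖) → SimpleDistinctBeyond q R) ∧
    ∀ q : ℂ, 0 < ‖q‖ → ‖q‖ ≤ 1 → ∃ R : ℝ, SimpleDistinctBeyond q R := by
  have key : ∀ (q : ℂ) (R : ℝ), ‖q‖ ≤ 1 → SokalBPlus.SimpleDistinct q R →
      SimpleDistinctBeyond q R := by
    intro q R hq h u hu hF
    rw [deriv_F hq]
    exact h u hu hF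
  obtain ⟨Ω, h1, h2, h3⟩ := SokalBPlus.bplus
  refine ⟨Ω, h1, h2, fun ε hε => ?_, fun q hq0 hq1 => ?_⟩
  · obtain ⟨R, hR⟩ := h3 ε hε
    exact ⟨R, fun q hq0 hq1 h => key q R hq1 (hR q hq0 hq1 h)⟩
  · obtain ⟨R, hR⟩ := SokalBPlus.bplus_single q hq0 hq1
    exact ⟨R, key q R hq1 hR⟩

end Pool.Agent.Results.MP_af4de1_an.LargeZeros
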